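import Pool.Agent.SubwordFlip.Main
import Pool.Agent.SubwordFlip.Tits

/-!
# Extremal flips and the subword complex quotient

Every finite Coxeter system has a root system. For every root system of a finite Coxeter system,
every alternating word `Q` and every `ω` such that the subword complex of `(Q, ω)` is nonempty and
the sets of linear extensions define a lattice congruence of `[e, ω]`, the Hasse diagram of the
quotient lattice is isomorphic to the graph of extremal increasing flips between strongly acyclic
facets; the isomorphism sends a strongly acyclic facet `I` to the class of its linear extensions.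
-/

namespace Pool.Agent.Results.MP_9e7791_co.ExtremalFlips

open Pool.Agent.SubwordFlip RootSystemOf

universe u v w

theorem result {B : Type u} {W : Type v} [Fintype B] [Group W] [Finite W] {M : CoxeterMatrix B}
    (cs : CoxeterSystem M W) :
    (∃ (V : Type u) (_ : NormedAddCommGroup V) (_ : InnerProductSpace ℝ V),
      Nonempty (RootSystemOf cs V)) ∧
    ∀ (V : Type w) [NormedAddCommGroup V] [InnerProductSpace ℝ V] (R : RootSystemOf cs V)
      {m : ℕ} (Q : Fin m → B) (ω : W), Alternating cs Q →
      (∃ I : Finset (Fin m), IsFacet cs Q ω I) →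
      ∀ c : LatticeCon (R.Interval ω),
      (∀ x y : R.Interval ω, c.r x y ↔ R.SameFacet Q ω x y) →
      ∃ e : {I : Finset (Fin m) // R.StronglyAcyclic Q ω I} ≃ QuotLat c,
        (∀ I (x : R.Interval ω), x.1 ∈ R.linExt Q I.1 ↔ QuotLat.mk c x = e I) ∧
        ∀ I J : {I : Finset (Fin m) // R.StronglyAcyclic Q ω I},
          R.ExtremalFlip Q I.1 J.1 ↔ e I ⋖ e J :=
  ⟨exists_rootSystem cs, fun _ _ _ R _ Q ω hQ hne c hc => main_iso R Q ω hQ hne c hc⟩

end Pool.Agent.Results.MP_9e7791_co.ExtremalFlips
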